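import Pool.Agent.Run7.h1.SQ.TF

/-!
# Groups acting on square complexes of nonpositive curvature

Problem `MP_28303a_al`, question Q1 (negative K-groups of group rings of torsion-free groups over regular rings).

`C` is any class of groups with the closure properties `ClosedE C` (it contains `ℤ`, is closed under
subgroups, finite products, free products, overgroups of finite index and directed colimits, and satisfies
the extension criterion) which contains the extensions of free groups of arbitrary rank by `ℤ` (`FbC C`)
and the groups acting properly and cocompactly on simply connected locally finite piecewise Euclidean
complexes of dimension two and of nonpositive curvature (`CatC C`). All this is published for the class of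
the groups whose wreath products with finite groups satisfy the K-theoretic Farrell-Jones conjecture
with coefficients (Bartels, Lück, Reich, Wegner; Bestvina, Fujiwara, Wigglesworth and Brück, Kielak, Wu for
the extensions of free groups). `V` is any property that all torsion-free groups in `C` have; for this class one may take: `K_n(RG) = 0` for
all regular rings `R` and `n ≤ -1`.

A square complex of nonpositive curvature (`Cub T F`) is given by a graph `T` and a set `F` of squares
glued in along closed edge paths of length four: two squares with a common corner are equal, and the
links of the vertices contain no triangles. There is no finiteness condition.

* (1) Let `G` act on a simply connected square complex of nonpositive curvature. Suppose that for each pair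
  of vertices `x`, `y` which are equal, adjacent or opposite in a square there is a homomorphism from `G` to
  a group in `C` which is injective on the set of the elements that preserve `{x, y}`. Then `G` is in
  `C`. The complex need not be locally finite, there may be infinitely many orbits, and the stabilizers
  may be arbitrarily large.
* (2) If `N` is a normal subgroup of `G`, `G / N` is in `C`, `G` acts on a simply connected square complex of
  nonpositive curvature and no nontrivial element of `N` preserves a vertex, an edge or a
  diagonal of a square, then `G` is in `C`.
* (3) Let `Γ` be a triangle-free graph, let `K` be a group with subgroups `D ≤ A_v` for the vertices `v` of
  `Γ` such that `A_v ∩ A_w = D` for the edges `{v, w}`, and let `K` be the colimit of the groups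
  `D`, `A_v` and `⟨A_v, A_w⟩` (`{v, w}` an edge). If for each vertex and for each edge there is a
  homomorphism from `K` to a group in `C` which is injective on `A_v` respectively on `⟨A_v, A_w⟩`, then `K`
  is in `C`. These are the fundamental groups of the simple complexes of groups over triangle-free
  graphs, for instance of the polygons of groups with at least four sides.
* (4) Let `Γ` be a triangle-free graph, `G_v` a group for each vertex and `K` the quotient of the
  free product of the groups `G_v` by a set of relators such that each relator is a word in the
  two groups of an edge and has trivial image in both of them. Then `K` is in `C` if and only if
  all groups `G_v` are in `C` and for all edges `{v, w}` the subgroup of `K` generated by `G_v` and `G_w` is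
  in `C`.

In all cases the groups have the property `V` if they are torsion-free.

That the groups are in `C` is the theorem `MP_2a0850_gt.SquareComplexes` of helper909, handed in for the
Borel conjecture (the proof is outlined there).
-/

set_option autoImplicit false

namespace Pool.Agent.Results.MP_28303a_al.SquareComplexes

open Pool.Agent.Y110.FJ (ClosedE)
open Pool.Agent.R684.FP (FbC)
open Run7.h909.TD Pool.Agent.Run7.h1.SQ

/-- The four assertions (1)-(4) above hold for the class `C`, and these groups have the property `V` if they
are torsion-free. -/
theorem result (C : ∀ (G : Type) [Group G], Prop) (hC : ClosedE C) (hF : FbC C) (hcat : CatC C)
    (V : ∀ (G : Type) [Group G], Prop)
    (hV : ∀ (G : Type) [Group G], C G → TorsionFree G → V G) :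
    Actions C (IfTF V) ∧ Extensions C (IfTF V) ∧ Colimits C (IfTF V) ∧ Relators C (IfTF V) :=
  all hC hF hcat fun G _ h ht => hV G h ht

end Pool.Agent.Results.MP_28303a_al.SquareComplexes
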